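import Pool.Agent.Helper93.SheetU.Def

/-!
MP_16f2e2_pr: double points of the slices of the Brownian sheet in dimension `4` and higher.  Almost
surely, for every `s > 0` simultaneously, the set of pairs of distinct times at which the slice along
`s` has a double point has Hausdorff dimension `0`; the covering numbers of its bounded parts away
from the diagonal are `O(r ^ (-ε))` for every `ε > 0`, uniformly in `s`.
-/

set_option autoImplicit false

namespace Pool.Agent.Results.MP_16f2e2_pr.SliceDoublePoints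

open MeasureTheory ProbabilityTheory
open Pool.Agent.Helper93.SheetU (IsBrownianSheet)

theorem result {Ω : Type*} [MeasurableSpace Ω] (P : Measure Ω) (d : ℕ) (hd : 4 ≤ d)
    (B : Ω → ℝ → ℝ → (Fin d → ℝ)) (hB : IsBrownianSheet P B) :
    ∀ᵐ ω ∂P,
      (∀ s : ℝ, 0 < s →
        dimH {p : ℝ × ℝ | 0 < p.1 ∧ 0 < p.2 ∧ p.1 ≠ p.2 ∧ B ω s p.1 = B ω s p.2} = 0) ∧
      ∀ ε δ M : ℝ, 0 < ε → 0 < δ → 0 < M → ∃ C : ℝ,
        ∀ s : ℝ, 1 / M ≤ s → s ≤ M → ∀ r : ℝ, 0 < r → r ≤ 1 →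
          ∃ F : Finset (ℝ × ℝ), (F.card : ℝ) ≤ C * r ^ (-ε) ∧
            {p : ℝ × ℝ | 0 < p.1 ∧ 0 < p.2 ∧ p.1 ≤ M ∧ p.2 ≤ M ∧ δ ≤ |p.1 - p.2| ∧
              B ω s p.1 = B ω s p.2} ⊆ ⋃ x ∈ F, Metric.closedBall x r := by
  have hprob : IsProbabilityMeasure P := hB.gaussian.isProbabilityMeasure
  have hcont : ∀ᵐ ω ∂P, ContinuousOn
      (fun p : ℝ × ℝ => (fun i : Fin 4 => B ω p.1 p.2 (Fin.castLE hd i)))
        ((Set.Ici (0 : ℝ)) ×ˢ (Set.Ici (0 : ℝ))) := by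
    filter_upwards [hB.continuous] with ω hω
    rw [continuousOn_pi]
    intro i
    exact (continuousOn_pi.mp hω) (Fin.castLE hd i)
  have h := Pool.Agent.Helper93.SheetU.sheet4 P (fun ω s t i => B ω s t (Fin.castLE hd i)) hcont
    (hB.isSheet hd)
  filter_upwards [h] with ω hω
  refine ⟨fun s hs => ?_, fun ε δ M hε hδ hM => ?_⟩
  · refine le_antisymm ?_ (zero_le)
    rw [← hω.1 s hs]
    apply dimH_mono
    rintro p ⟨h1, h2, h3, h4⟩
    exact ⟨h1, h2, h3, by funext i; exact congrFun h4 _⟩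
  · obtain ⟨C, hC⟩ := hω.2 ε δ M hε hδ hM
    refine ⟨C, fun s hs1 hs2 r hr0 hr1 => ?_⟩
    obtain ⟨F, hF1, hF2⟩ := hC s hs1 hs2 r hr0 hr1
    refine ⟨F, hF1, subset_trans ?_ hF2⟩
    rintro p ⟨h1, h2, h3, h4, h5, h6⟩
    refine ⟨⟨h1, h2, ?_, ?_⟩, h3, h4, h5⟩
    · rintro h7
      rw [h7, sub_self, abs_zero] at h5
      linarith
    · funext i
      exact congrFun h6 _

end Pool.Agent.Results.MP_16f2e2_pr.SliceDoublePoints
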